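import Pool.Agent.BC.Stmts

/-!
# BC, module STA: most deep descendants are stable
-/

set_option autoImplicit false

open Finset

noncomputable section

namespace Pool.Agent.BC.H76

/-- the average is monotone -/
theorem av_mono {t : ℕ} (m : ℕ) {G G' : (Fin t → ℤ) → ℝ} (h : ∀ d, G d ≤ G' d)
    (c : Fin t → ℤ) : av m G c ≤ av m G' c := by
  unfold av
  rw [smul_eq_mul, smul_eq_mul]
  exact mul_le_mul_of_nonneg_left (Finset.sum_le_sum fun r _ => h _) (by positivity)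

/-- the average of a shifted function -/
theorem av_add_const {t : ℕ} (m : ℕ) (G : (Fin t → ℤ) → ℝ) (K : ℝ) (c : Fin t → ℤ) :
    av m (fun d => G d + K) c = av m G c + K := by
  unfold av
  rw [smul_eq_mul, smul_eq_mul, Finset.sum_add_distrib, mul_add]
  congr 1
  rw [Finset.sum_const, Finset.card_univ, Fintype.card_fun, Fintype.card_fin, Fintype.card_fin,
    nsmul_eq_mul]
  push_cast
  have : (((2 : ℝ) ^ m) ^ t) ≠ 0 := by positivity
  field_simp

/-- the average of a finite sum -/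
theorem av_finsum {t : ℕ} (m : ℕ) {ι : Type} [Fintype ι] (G : ι → (Fin t → ℤ) → ℝ)
    (c : Fin t → ℤ) : av m (fun d => ∑ b, G b d) c = ∑ b, av m (G b) c := by
  unfold av
  rw [← Finset.smul_sum, Finset.sum_comm]

/-- union bound -/
theorem bad_union {t : ℕ} (m : ℕ) {ι : Type} [Fintype ι] (A : (Fin t → ℤ) → Prop)
    (B : ι → (Fin t → ℤ) → Prop) (h : ∀ d, (∀ b, B b d) → A d) (c : Fin t → ℤ) :
    bad m A c ≤ ∑ b, bad m (B b) c := by
  classical
  unfold bad
  rw [← av_finsum]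
  refine av_mono m (fun d => ?_) c
  by_cases hA : A d
  · rw [if_pos hA]
    refine Finset.sum_nonneg fun b _ => ?_
    split_ifs <;> norm_num
  · rw [if_neg hA]
    have hex : ∃ b, ¬ B b d := by
      by_contra hcon
      push Not at hcon
      exact hA (h d hcon)
    obtain ⟨b, hb⟩ := hex
    calc (1 : ℝ) = (if B b d then (0 : ℝ) else 1) := by rw [if_neg hb]
      _ ≤ ∑ b, (if B b d then (0 : ℝ) else 1) := by
        refine Finset.single_le_sum (f := fun b => if B b d then (0 : ℝ) else 1)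
          (fun b _ => ?_) (Finset.mem_univ b)
        split_ifs <;> norm_num

variable {X : Type} [NormedAddCommGroup X] [NormedSpace ℝ X]

theorem J_bound {x : ℕ → ℤ → X} (hx : IsT x) {t : ℕ} (n : ℕ) (c : Fin t → ℤ) (a : Fin t → ℝ)
    (K : ℝ) (ha : ∀ i, |a i| ≤ K) : ‖J x n c a‖ ≤ t * K := by
  unfold J
  calc ‖∑ i, a i • x n (c i)‖ ≤ ∑ i, ‖a i • x n (c i)‖ := norm_sum_le _ _
    _ ≤ ∑ _i : Fin t, K := by
      refine Finset.sum_le_sum fun i _ => ?_
      rw [norm_smul, Real.norm_eq_abs]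
      have h1 := hx.1 n (c i)
      have h2 := ha i
      have h3 : 0 ≤ |a i| := abs_nonneg _
      have h4 : 0 ≤ ‖x n (c i)‖ := norm_nonneg _
      nlinarith
    _ = t * K := by
      rw [Finset.sum_const, Finset.card_univ, Fintype.card_fin, nsmul_eq_mul]

theorem J_sub {x : ℕ → ℤ → X} {t : ℕ} (n : ℕ) (c : Fin t → ℤ) (a b : Fin t → ℝ) :
    J x n c a - J x n c b = J x n c (fun i => a i - b i) := by
  unfold J
  rw [← Finset.sum_sub_distrib]
  exact Finset.sum_congr rfl fun i _ => (sub_smul _ _ _).symm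

/-- comparison of the squares of the norms -/
theorem J_sq_cmp {x : ℕ → ℤ → X} (hx : IsT x) {t : ℕ} (n : ℕ) (c : Fin t → ℤ)
    (a b : Fin t → ℝ) (K : ℝ) (ha : ∀ i, |a i| ≤ 1) (hb : ∀ i, |b i| ≤ 1)
    (hab : ∀ i, |a i - b i| ≤ K) :
    ‖J x n c a‖ ^ 2 ≤ ‖J x n c b‖ ^ 2 + 2 * t * (t * K) := by
  have h1 := J_bound hx n c a 1 ha
  have h2 := J_bound hx n c b 1 hb
  have h3 := J_bound hx n c (fun i => a i - b i) K hab
  rw [← J_sub] at h3
  have h4 : ‖J x n c a‖ - ‖J x n c b‖ ≤ ‖J x n c a - J x n c b‖ := norm_sub_norm_le _ _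
  have h5 : 0 ≤ ‖J x n c a‖ := norm_nonneg _
  have h6 : 0 ≤ ‖J x n c b‖ := norm_nonneg _
  have h7 : 0 ≤ ‖J x n c a - J x n c b‖ := norm_nonneg _
  nlinarith

theorem sta (sup : SupStmt) (jen : JenStmt) : StaStmt := by
  intro X _ _ x hx t n c κ ε hκ hε
  classical
  -- the mesh
  obtain ⟨M, hM⟩ := exists_nat_gt (8 * (t : ℝ) ^ 2 / κ)
  have hM0 : (0 : ℝ) < M := lt_of_le_of_lt (by positivity) hM
  have hM1 : 0 < M := by exact_mod_cast hM0
  have hMκ : 4 * ((t : ℝ) * (t * (1 / M))) ≤ κ / 2 := by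
    rw [div_lt_iff₀ hκ] at hM
    have h1 : (t : ℝ) * (t * (1 / M)) = (t : ℝ) ^ 2 / M := by ring
    rw [h1, ← mul_div_assoc, div_le_iff₀ hM0]
    linarith
  -- the net
  let pt : (Fin t → Fin (2 * M + 1)) → Fin t → ℝ := fun b i => (((b i : ℕ) : ℝ) - M) / M
  have hpt : ∀ b i, |pt b i| ≤ 1 := by
    intro b i
    have h1 : ((b i : ℕ) : ℝ) ≤ 2 * M := by
      have := (b i).2
      have h2 : (b i : ℕ) ≤ 2 * M := by omega
      exact_mod_cast h2
    have h3 : (0 : ℝ) ≤ ((b i : ℕ) : ℝ) := Nat.cast_nonneg _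
    show |(((b i : ℕ) : ℝ) - M) / M| ≤ 1
    rw [abs_div, abs_of_pos hM0, div_le_one hM0, abs_le]
    constructor <;> linarith
  have hnet : ∀ a : Fin t → ℝ, (∀ i, |a i| ≤ 1) → ∃ b, ∀ i, |a i - pt b i| ≤ 1 / M := by
    intro a ha
    have key : ∀ i, ∃ z : Fin (2 * M + 1), |a i - (((z : ℕ) : ℝ) - M) / M| ≤ 1 / M := by
      intro i
      have hai := abs_le.mp (ha i)
      have h0 : 0 ≤ (a i + 1) * M := mul_nonneg (by linarith) hM0.le
      have hfl := Nat.floor_le h0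
      have hfl2 := Nat.lt_floor_add_one ((a i + 1) * M)
      have hlt : ⌊(a i + 1) * M⌋₊ < 2 * M + 1 := by
        have h1 : (⌊(a i + 1) * M⌋₊ : ℝ) ≤ 2 * M := by
          refine hfl.trans ?_
          nlinarith
        have h2 : ⌊(a i + 1) * M⌋₊ ≤ 2 * M := by exact_mod_cast h1
        omega
      refine ⟨⟨⌊(a i + 1) * M⌋₊, hlt⟩, ?_⟩
      show |a i - ((⌊(a i + 1) * M⌋₊ : ℝ) - M) / M| ≤ 1 / M
      have h3 : a i - ((⌊(a i + 1) * M⌋₊ : ℝ) - M) / M =
          ((a i + 1) * M - ⌊(a i + 1) * M⌋₊) / M := by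
        field_simp
        ring
      rw [h3, abs_div, abs_of_pos hM0]
      refine div_le_div_of_nonneg_right ?_ hM0.le
      rw [abs_le]
      constructor <;> linarith
    choose z hz using key
    exact ⟨z, hz⟩
  -- the submartingales
  have hF : ∀ b : Fin t → Fin (2 * M + 1), ∃ m₀, ∀ m, m₀ ≤ m →
      bad m (fun d => ∀ m', av m' (fun e => ‖J x (n + m + m') e (pt b)‖ ^ 2) d ≤
        ‖J x (n + m) d (pt b)‖ ^ 2 + κ / 2) c ≤ ε / ((2 * M + 1 : ℕ) ^ t : ℕ) := by
    intro b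
    refine sup t (fun n c => ‖J x n c (pt b)‖ ^ 2) ((t : ℝ) ^ 2) (fun n c => ⟨by positivity, ?_⟩)
      (fun n m c => ?_) n c (κ / 2) (ε / ((2 * M + 1 : ℕ) ^ t : ℕ)) (by linarith) (by positivity)
    · have h1 := J_bound hx n c (pt b) 1 (hpt b)
      rw [mul_one] at h1
      exact pow_le_pow_left₀ (norm_nonneg _) h1 2
    · have h1 := ((jen X x hx).2.2.2 t n m c (pt b)).2.2 0
      simpa using h1
  choose m₀ hm₀ using hF
  refine ⟨Finset.univ.sup m₀, fun m hm => ?_⟩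
  have hun : bad m (fun d => Stab x κ (n + m) d) c ≤
      ∑ b : Fin t → Fin (2 * M + 1),
        bad m (fun d => ∀ m', av m' (fun e => ‖J x (n + m + m') e (pt b)‖ ^ 2) d ≤
          ‖J x (n + m) d (pt b)‖ ^ 2 + κ / 2) c := by
    refine bad_union m _ _ (fun d hd => ?_) c
    intro m' a ha
    obtain ⟨b, hb⟩ := hnet a ha
    have h1 : av m' (fun e => ‖J x (n + m + m') e a‖ ^ 2) d ≤
        av m' (fun e => ‖J x (n + m + m') e (pt b)‖ ^ 2) d + 2 * t * (t * (1 / M)) := by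
      rw [← av_add_const]
      exact av_mono m' (fun e => J_sq_cmp hx _ e a (pt b) (1 / M) ha (hpt b) hb) d
    have h2 := hd b m'
    have h3 := J_sq_cmp hx (n + m) d (pt b) a (1 / M) (hpt b) ha
      (fun i => by rw [abs_sub_comm]; exact hb i)
    linarith
  refine hun.trans ?_
  calc ∑ b : Fin t → Fin (2 * M + 1),
        bad m (fun d => ∀ m', av m' (fun e => ‖J x (n + m + m') e (pt b)‖ ^ 2) d ≤
          ‖J x (n + m) d (pt b)‖ ^ 2 + κ / 2) c
      ≤ ∑ _b : Fin t → Fin (2 * M + 1), ε / ((2 * M + 1 : ℕ) ^ t : ℕ) := by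
        refine Finset.sum_le_sum fun b _ => hm₀ b m ?_
        exact (Finset.le_sup (f := m₀) (Finset.mem_univ b)).trans hm
    _ = ε := by
      rw [Finset.sum_const, Finset.card_univ, Fintype.card_fun, Fintype.card_fin,
        Fintype.card_fin, nsmul_eq_mul]
      have h1 : (((2 * M + 1 : ℕ) ^ t : ℕ) : ℝ) ≠ 0 := by positivity
      field_simp

end Pool.Agent.BC.H76
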